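import Pool.Agent.N561.EK.Stm

/-!
# The tangent plane inequality of a child (EK/12)
-/

set_option autoImplicit false

namespace Pool.Agent.N262.EK

open Filter Topology
open Pool.Agent.W711.HT hiding XX
open Pool.Agent.N561
open Pool.Agent.N561.EK
open scoped Real

theorem tg_add (z G G' w : ℂ) : tg z (G + G') w = tg z G w + tg z G' w := by
  unfold tg
  rw [Complex.add_im, Complex.add_re]
  ring

theorem tg_zero (z w : ℂ) : tg z 0 w = 0 := by
  unfold tg
  simp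

theorem qre (a : ℤ) (w : ℂ) : (Complex.I * a * w ^ 2 / (4 * π) + Complex.I * w).re =
    -(a * w.re * w.im / (2 * π)) - w.im := by
  have h : (Complex.I * a * w ^ 2 / (4 * π) : ℂ) = Complex.I * w ^ 2 * ((a / (4 * π) : ℝ) : ℂ) := by
    push_cast; ring
  rw [h, Complex.add_re, Complex.re_mul_ofReal]
  simp [sq, Complex.mul_re]
  field_simp
  ring

theorem qtg (a : ℤ) {z : ℂ} (hz : 0 < z.im) (w : ℂ) :
    (Complex.I * a * w ^ 2 / (4 * π) + Complex.I * w).re =
      (Complex.I * a * z ^ 2 / (4 * π) + Complex.I * z).re +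
        tg z (Complex.I * a * z / (2 * π) + Complex.I) w := by
  rw [qre, qre]
  unfold tg
  have h : (Complex.I * a * z / (2 * π) + Complex.I : ℂ) =
      Complex.I * z * ((a / (2 * π) : ℝ) : ℂ) + Complex.I := by
    push_cast; ring
  rw [h, Complex.add_re, Complex.add_im, Complex.re_mul_ofReal, Complex.im_mul_ofReal]
  simp [Complex.mul_re, Complex.mul_im]
  field_simp
  ring

theorem D0_DD {z : ℂ} (h : z ∈ D0) : z ∈ DD := by
  obtain ⟨h1, h2, h3⟩ := h
  refine ⟨?_, ?_⟩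
  · have := Complex.abs_re_le_norm z
    linarith
  · rcases h3 with rfl | h3
    · simp
    · rw [abs_of_pos h3]; linarith

theorem D0_im {z : ℂ} (h : z ∈ D0) : 0 ≤ z.im := by
  rcases h.2.2 with h | h
  · rw [h]; simp
  · exact h.le

theorem PP_DD {z w : ℂ} (h : z ∈ D0) (hw : w ∈ PP z) : w ∈ DD := by
  have h0 := D0_im h
  rcases hw with ⟨h1, h2⟩ | ⟨h1, h2, h3⟩
  · refine ⟨by linarith, ?_⟩
    rw [h2, abs_of_nonneg h0]
    linarith [h.2.1]
  · refine ⟨by linarith, ?_⟩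
    rw [abs_of_nonneg h2]
    linarith [h.2.1]

theorem DD_open : IsOpen DD := by
  have h1 : IsOpen {w : ℂ | |w.re| < 21 / 20} :=
    isOpen_lt (Complex.continuous_re.abs) continuous_const
  have h2 : IsOpen {w : ℂ | |w.im| < 1 / 4} :=
    isOpen_lt (Complex.continuous_im.abs) continuous_const
  exact h1.inter h2

theorem CO_PP {z w : ℂ} (h : z ∈ D0) (hw : CO w) : w ∈ PP z :=
  Or.inr ⟨hw.1, hw.2.ge, by rw [hw.2]; exact D0_im h⟩

theorem hs_diff (hP : POT) {t : ℕ} {a : ℤ} {F : ℂ → ℂ} (hF : AN t F) {ψ : ℂ} (hψ : ψ ∈ DD) :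
    DifferentiableOn ℂ (fun v => qq a F v + sg v ψ) DD := by
  have h1 : DifferentiableOn ℂ (fun v => sg v ψ) DD := fun v hv =>
    (hP.d1 v hv ψ hψ).differentiableAt.differentiableWithinAt
  have h3 : DifferentiableOn ℂ (fun v => qq a F v) DD := by
    unfold qq
    have : Differentiable ℂ fun w : ℂ => Complex.I * a * w ^ 2 / (4 * π) + Complex.I * w := by
      fun_prop
    exact this.differentiableOn.add hF.Fan
  exact h3.add h1

theorem hs_deriv (hP : POT) {t : ℕ} {a : ℤ} {F : ℂ → ℂ} (hF : AN t F) {ψ : ℂ} (hψ : ψ ∈ DD)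
    {z : ℂ} (hz : z ∈ DD) : deriv (fun v => qq a F v + sg v ψ) z =
      Complex.I * a * z / (2 * π) + Complex.I + deriv F z + s1 z ψ := by
  have h1 : HasDerivAt (fun v => sg v ψ) (s1 z ψ) z :=
    (hP.d1 z hz ψ hψ).differentiableAt.hasDerivAt
  have h2 : HasDerivAt F (deriv F z) z :=
    (hF.Fan.differentiableAt (DD_open.mem_nhds hz)).hasDerivAt
  have h3 : HasDerivAt (fun w : ℂ => Complex.I * a * w ^ 2 / (4 * π) + Complex.I * w)
      (Complex.I * a * z / (2 * π) + Complex.I) z := by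
    have h5 := (hasDerivAt_pow 2 z).const_mul (Complex.I * a / (4 * π))
    have h6 := (hasDerivAt_id' z).const_mul Complex.I
    have h7 := h5.fun_add h6
    have e1 : (fun w : ℂ => Complex.I * a * w ^ 2 / (4 * π) + Complex.I * w) =
        fun w : ℂ => Complex.I * a / (4 * π) * w ^ 2 + Complex.I * w := by
      funext w; ring
    rw [e1]
    refine h7.congr_deriv ?_
    have hpi : (π : ℂ) ≠ 0 := by exact_mod_cast Real.pi_ne_zero
    field_simp
    simp
    ring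
  have h4 := (h3.add h2).add h1
  exact h4.deriv

theorem hs_deriv2 (hP : POT) (hH : HES) {t : ℕ} {a : ℤ} {F : ℂ → ℂ} (hF : AN t F) {ψ : ℂ}
    (hψ : ψ ∈ DD) {z : ℂ} (hz : z ∈ DD) :
    (deriv (deriv (fun v => qq a F v + sg v ψ)) z).re < 0 := by
  have he : deriv (fun v => qq a F v + sg v ψ) =ᶠ[𝓝 z]
      fun z => Complex.I * a * z / (2 * π) + Complex.I + deriv F z + s1 z ψ := by
    filter_upwards [DD_open.mem_nhds hz] with v hv
    exact hs_deriv hP hF hψ hv
  rw [he.deriv_eq]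
  have h1 := hP.d11 z hz ψ hψ
  have h2 : HasDerivAt (deriv F) (deriv (deriv F) z) z :=
    ((hF.Fan.deriv DD_open).differentiableAt (DD_open.mem_nhds hz)).hasDerivAt
  have h3 : HasDerivAt (fun w : ℂ => Complex.I * a * w / (2 * π) + Complex.I)
      (Complex.I * a / (2 * π)) z := by
    have h5 := ((hasDerivAt_id' z).const_mul (Complex.I * a / (2 * π))).add_const Complex.I
    have e1 : (fun w : ℂ => Complex.I * a * w / (2 * π) + Complex.I) =
        fun w : ℂ => Complex.I * a / (2 * π) * w + Complex.I := by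
      funext w; ring
    rw [e1]
    exact h5.congr_deriv (by ring)
  have h4 := ((h3.add h2).add h1).deriv
  have h5 : deriv (fun z => Complex.I * a * z / (2 * π) + Complex.I + deriv F z + s1 z ψ) z =
      Complex.I * a / (2 * π) + deriv (deriv F) z + -(1 / (2 * π)) *
        (Complex.cos (ψ / 2) / (Complex.cos (z / 2) * rr z ψ)) := h4
  rw [h5, Complex.add_re, Complex.add_re]
  have e1 : (Complex.I * a / (2 * π) : ℂ).re = 0 := by
    have : (Complex.I * a / (2 * π) : ℂ) = Complex.I * ((a / (2 * π) : ℝ) : ℂ) := by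
      push_cast; ring
    rw [this, Complex.re_mul_ofReal]
    simp
  have e2 := hF.neg z hz
  have e3 := hH.hes z hz ψ hψ 1 0
  have e4 : (-(1 / (2 * π)) * (Complex.cos (ψ / 2) / (Complex.cos (z / 2) * rr z ψ)) : ℂ).re =
      -(1 / (2 * π)) * (Complex.cos (ψ / 2) / (Complex.cos (z / 2) * rr z ψ)).re := by
    have : (-(1 / (2 * π)) : ℂ) = ((-(1 / (2 * π)) : ℝ) : ℂ) := by push_cast; ring
    rw [this, Complex.re_ofReal_mul]
  rw [e1, e4]
  have e5 : 3 / 5 ≤ (Complex.cos (ψ / 2) / (Complex.cos (z / 2) * rr z ψ)).re := by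
    linarith
  have e6 : 0 < 1 / (2 * π) := by positivity
  nlinarith

theorem hs_lt (hE : EDG) {t : ℕ} {a : ℤ} {F F' zs : ℂ → ℂ} (hT : TP t F)
    (hC : CRD t a F F' zs) {ψ : ℂ} (hψ : ψ ∈ DD) {v : ℂ} (hv : v ∈ PP (zs ψ)) (hne : v ≠ zs ψ) :
    (qq a F v + sg v ψ).re < (qq a F (zs ψ) + sg (zs ψ) ψ).re := by
  obtain ⟨hz, him⟩ := hC.mem ψ hψ
  have h1 := qtg a him v
  have h2 := hT.tp _ hz v hv
  have h3 := (hE.e1 _ hz ψ hψ v hv).2.1 hne
  have h4 : tg (zs ψ) (Complex.I * a * zs ψ / (2 * π) + Complex.I) v +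
      tg (zs ψ) (deriv F (zs ψ)) v + tg (zs ψ) (s1 (zs ψ) ψ) v = 0 := by
    rw [← tg_add, ← tg_add, hC.crit ψ hψ, tg_zero]
  unfold qq
  rw [Complex.add_re, Complex.add_re, Complex.add_re (_ + F (zs ψ)), Complex.add_re _ (F (zs ψ)),
    h1]
  linarith

theorem key (hM : S_MM) (hP : POT) (hH : HES) (hE : EDG) {t : ℕ} {a : ℤ} {F F' zs : ℂ → ℂ}
    (hF : AN t F) (hT : TP t F) (hC : CRD t a F F' zs) {z0 w' : ℂ} (hz0 : z0 ∈ D0)
    (hw' : w' ∈ PP z0) : ∃ v ∈ PP (zs z0), (F' w').re ≤ (F' z0).re +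
      ((sg v w').re - (sg (zs z0) z0).re - tg (zs z0) (s1 (zs z0) z0) v) := by
  have hw'D := PP_DD hz0 hw'
  have hz0D := D0_DD hz0
  obtain ⟨m1, m2⟩ := hC.mem w' hw'D
  obtain ⟨n1, n2⟩ := hC.mem z0 hz0D
  obtain ⟨v, hv, hle⟩ := hM (fun v => qq a F v + sg v w') (zs w') (zs z0) (hs_diff hP hF hw'D)
    m1 m2 n1 (by rw [hs_deriv hP hF hw'D (D0_DD m1)]; exact hC.crit w' hw'D)
    (hs_deriv2 hP hH hF hw'D (D0_DD m1)) (fun v hv hne => hs_lt hE hT hC hw'D hv hne)
  refine ⟨v, hv, ?_⟩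
  rw [hC.val w' hw'D, hC.val z0 hz0D]
  refine hle.trans ?_
  have h1 := qtg a n2 v
  have h2 := hT.tp _ n1 v hv
  have h4 : tg (zs z0) (Complex.I * a * zs z0 / (2 * π) + Complex.I) v +
      tg (zs z0) (deriv F (zs z0)) v + tg (zs z0) (s1 (zs z0) z0) v = 0 := by
    rw [← tg_add, ← tg_add, hC.crit z0 hz0D, tg_zero]
  unfold qq
  simp only [Complex.add_re] at h1 ⊢
  linarith

theorem tpn (hM : S_MM) : S_TPN := by
  intro hP hH hE t a F F' zs hF hT hC
  have hd : ∀ z ∈ D0, deriv F' z = s2 (zs z) z := fun z hz => (hC.der z (D0_DD hz)).deriv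
  refine ⟨?_, ?_, ?_⟩
  · intro z hz w hw
    obtain ⟨v, hv, h⟩ := key hM hP hH hE hF hT hC hz hw
    have h2 := (hE.e2 _ (hC.mem z (D0_DD hz)).1 z hz v hv w hw).1
    rw [hd z hz]
    linarith
  · intro _ z hz w hw hne
    obtain ⟨v, hv, h⟩ := key hM hP hH hE hF hT hC hz hw
    have h2 := (hE.e2 _ (hC.mem z (D0_DD hz)).1 z hz v hv w hw).2.1 (Or.inr hne)
    rw [hd z hz]
    linarith
  · intro z hz w hw
    obtain ⟨v, hv, h⟩ := key hM hP hH hE hF hT hC hz (CO_PP hz hw)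
    have h2 := (hE.e2 _ (hC.mem z (D0_DD hz)).1 z hz v hv w (CO_PP hz hw)).2.2 (Or.inr hw)
    rw [hd z hz]
    push_cast
    linarith

end Pool.Agent.N262.EK
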